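import Pool.Agent.K.MP_f1060b_co.C4

open Pool.Agent.StackSort

theorem Pool.Agent.Results.MP_f1060b_co.AlmostAll.result : ∃ N : ℕ, ∀ n ≥ N,
    ∀ A B : Set (List ℕ),
      A = {l | l.Perm (List.range' 1 n) ∧ 1 < vol n l} →
      B = {l | l.Perm (List.range' 1 n) ∧ ∃ L M, l = L ++ n :: M ++ [n - 1, 1] ∧ n - 2 ∈ M} →
      B ⊆ A ∧ 2 * B.ncard = (n - 2).factorial ∧
        ((A \ B).ncard : ℝ) ≤ 7 * (n - 2).factorial / (n : ℝ) ^ (1 / 251 : ℝ) := by
  classical
  obtain ⟨N, hN⟩ := Filter.eventually_atTop.1 (exists_par.and (Filter.eventually_ge_atTop 4))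
  refine ⟨N, fun n hn A B hA hB => ?_⟩
  obtain ⟨⟨q, x, h⟩, h4⟩ := hN n hn
  have eB : B = ↑((Sn n).filter fun l => MainP n (px l)) := by
    ext l
    simp only [hB, Set.mem_setOf_eq, Finset.coe_filter, ← mem_Sn]
    exact and_congr_right fun hl => main_iff h4 hl
  have eA : A \ B = ↑((Sn n).filter fun l => 1 < vol n l ∧ ¬MainP n (px l)) := by
    ext l
    simp only [hA, eB, Set.mem_diff, Set.mem_setOf_eq, Finset.coe_filter, ← mem_Sn]
    tauto
  have hn : (4 : ℝ) ≤ n := by exact_mod_cast h4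
  have h1 : ∀ l ∈ B, vol n l = (n - 1) / (n - 2) := fun l hl => by
    rw [eB, Finset.mem_coe, Finset.mem_filter] at hl
    exact main_vol h4 hl.1 hl.2
  refine ⟨fun l hl => ?_, by rw [eB, Set.ncard_coe_finset, cnt_main h4], ?_⟩
  · have := h1 l hl
    rw [hB] at hl
    rw [hA]
    exact ⟨hl.1, by rw [this, one_lt_div (by linarith)]; linarith⟩
  · have h2 : (n : ℝ) ^ (1 / 251 : ℝ) ≤ x := by
      rw [one_div, Real.rpow_inv_le_iff_of_pos (by linarith) (by positivity) (by norm_num)]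
      exact_mod_cast h.hi
    rw [eA, Set.ncard_coe_finset, le_div_iff₀ (by positivity), mul_comm]
    refine (mul_le_mul_of_nonneg_right h2 (by positivity)).trans ?_
    exact_mod_cast count_rest h
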