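import Pool.Agent.K.MP_f1060b_co.C1

open Pool.Agent.StackSort

theorem Pool.Agent.Results.MP_f1060b_co.LargeK.result (n k : ℕ) (hk : k < n)
    (h : 2 * n ≤ 3 * k + 3) :
    IsGreatest {v : ℝ | ∃ l : List ℕ, l.Perm (List.range' 1 n) ∧ passes n l = k ∧ vol n l = v}
      (∏ i ∈ Finset.range (n - 1 - k),
        ((2 * k + 3 - n + 2 * i : ℝ) / (2 * k + 2 - n + i : ℝ))) := by
  obtain ⟨f, hf⟩ : ∃ f, n = k + 1 + f := ⟨n - 1 - k, by omega⟩
  obtain ⟨q, hq⟩ : ∃ q, k + 1 = q + f := ⟨k + 1 - f, by omega⟩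
  have e1 : n = q + 2 * f := by omega
  have e2 : k = q + f - 1 := by omega
  have e3 : ∏ i ∈ Finset.range (n - 1 - k), ((2 * k + 3 - n + 2 * i : ℝ) / (2 * k + 2 - n + i : ℝ)) =
      ∏ i ∈ Finset.range f, ((q : ℝ) + 1 + 2 * i) / (q + i) := by
    have a1 : (n : ℝ) = q + 2 * f := by exact_mod_cast e1
    have a2 : (k : ℝ) = q + f - 1 := by
      have : (k : ℝ) + 1 = q + f := by exact_mod_cast hq
      linarith
    rw [show n - 1 - k = f by omega, a1, a2]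
    refine Finset.prod_congr rfl fun i _ => ?_
    congr 1 <;> ring
  rw [e3, e1, e2]
  exact ⟨family (by omega) (by omega) le_rfl,
    fun v ⟨l, h1, h2, h3⟩ => h3 ▸ upper_large (by omega) h1 h2⟩
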