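import Pool.Agent.K.MP_f1060b_co.C0

open Pool.Agent.StackSort

theorem Pool.Agent.Results.MP_f1060b_co.Upper.result (n : ℕ) (hn : 1 ≤ n) (l : List ℕ)
    (h : l.Perm (List.range' 1 n)) : vol n l ≤ (3 : ℝ) ^ (((n : ℝ) - 1) / 3) := by
  have := vol_le_three h (n - 1) fun w hw => by have := LL_zero h hw; omega
  rwa [Nat.cast_sub hn, Nat.cast_one] at this
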